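import Pool.Agent.Q90.SF.FinD
import Pool.Agent.Q90.SF.Bes
import Pool.Agent.Q175.SF.Pot
import Pool.Agent.Q175.SF.Scl
import Pool.Agent.Q175.SF.Fou
import Pool.Agent.Q190.SF.Flat
import Pool.Agent.Q190.SF.Abs
import Pool.Agent.Q190.SF.Ana
import Pool.Agent.Q190.SF.Pol
import Pool.Agent.Q14.SF.Sfm
import Pool.Agent.Q14.SF.Spr
import Pool.Agent.Q14.SF.Cls
import Pool.Agent.Q285.SF.Lin
import Pool.Agent.Q285.SF.Lin2

/-!
# Schiffer's conjecture holds for generic star-shaped domains, in every function space

Let `V` be a normed space of continuous `2π`-periodic functions that contains the constants and a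
nonconstant function and whose norm dominates the supremum norm (for example a Banach space of real
analytic functions). The positive `v ∈ V` for which (S) has a nontrivial solution on the star-shaped
domain `{r e^{iθ} : 0 ≤ r < v θ}` form a meagre set.

Joint work of helper90 with helper14, helper175, helper190 and helper285.
-/

set_option autoImplicit false

open MeasureTheory Metric Set
open scoped Real
open Q90.SF

namespace Pool.Agent.Results.MP_83fd13_an.GenericStarShaped

/-- The positive elements of a function space `V` for which (S) has a nontrivial solution on the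
star-shaped domain with this radial function form a meagre set. -/
theorem result (V : Type) [NormedAddCommGroup V] [NormedSpace ℝ V] (ev : V →ₗ[ℝ] (ℝ → ℝ))
    (h : FunSpace V ev) :
    IsMeagre {v : V | (∀ θ, 0 < ev v θ) ∧ ∃ lam : ℝ, 0 < lam ∧
      Solvable (starDom (ev v)) lam} := by
  have hpol := Q190.SF.pol
  exact generic Q14.SF.cls hpol Pool.Agent.Q175.SF.pot
    (fun a ha hap hne =>
      star_par' (zop Q190.SF.flat Pool.Agent.Q175.SF.scl_all Q190.SF.abs_all Q190.SF.ana) hpol
        Q14.SF.sfm Q14.SF.spr Pool.Agent.Q175.SF.scl_all (bes hpol) Pool.Agent.Q175.SF.fou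
        Q285SF.lin Q285SF.lin2 a ha hap hne) h

end Pool.Agent.Results.MP_83fd13_an.GenericStarShaped
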