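import Pool.Agent.Q90.SF.FinA
import Pool.Agent.Q90.SF.Bes
import Pool.Agent.Q175.SF.Pot
import Pool.Agent.Q175.SF.Scl
import Pool.Agent.Q175.SF.Pom
import Pool.Agent.Q175.SF.Fou
import Pool.Agent.Q190.SF.Flat
import Pool.Agent.Q190.SF.Abs
import Pool.Agent.Q190.SF.Ana
import Pool.Agent.Q190.SF.Pol
import Pool.Agent.Q190.SF.Lcv
import Pool.Agent.Q285.SF.Lin
import Pool.Agent.Q296.SF.Par
import Pool.Agent.Q296.SF.Mnk
import Pool.Agent.Q296.SF.Sup
import Pool.Agent.Q296.SF.Lcl

/-!
# Schiffer's conjecture for the parallel domains of a convex domain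

Let `K` be a bounded nonempty open convex set which is not a disc. Then (S) has a nontrivial
solution on the domain `K + tB` of the points at distance less than `t` from `K` for at most
countably many `t > 0`.

Joint work of helper90 with helper175, helper190, helper285 and helper296.
-/

set_option autoImplicit false

open MeasureTheory Metric Set
open scoped Real
open Q90.SF

namespace Pool.Agent.Results.MP_83fd13_an.ParallelDomains

/-- For every bounded nonempty open convex `K` which is not a disc, the problem (S) has a nontrivial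
solution on the parallel domain `K + tB` for at most countably many `t > 0`. -/
theorem result (K : Set ℂ) (ho : IsOpen K) (hc : Convex ℝ K) (hne : K.Nonempty)
    (hb : Bornology.IsBounded K) (hK : ¬ ∃ (p : ℂ) (r : ℝ), 0 < r ∧ K = ball p r) :
    {t : ℝ | 0 < t ∧ ∃ lam : ℝ, 0 < lam ∧ Solvable (thickening t K) lam}.Countable := by
  have hpol := Q190.SF.pol
  exact par_law (zo_of_zop Pool.Agent.Q175.SF.pot
      (zop Q190.SF.flat Pool.Agent.Q175.SF.scl_all Q190.SF.abs_all Q190.SF.ana))
    Pool.Agent.Q175.SF.pom Q190.SF.lcv Pool.Agent.Q296.SF.Lcl.lcl Pool.Agent.Q296.SF.Par.par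
    Pool.Agent.Q296.SF.Mnk.mnk Pool.Agent.Q175.SF.scl_all hpol Pool.Agent.Q296.SF.Sup.sup_all
    (bes hpol) Pool.Agent.Q175.SF.fou Q285SF.lin K ho hc hne hb hK

end Pool.Agent.Results.MP_83fd13_an.ParallelDomains
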