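import Pool.Agent.Q90.SF.FinC
import Pool.Agent.Q90.SF.Bes
import Pool.Agent.Q175.SF.Pot
import Pool.Agent.Q175.SF.Scl
import Pool.Agent.Q175.SF.Fou
import Pool.Agent.Q190.SF.Flat
import Pool.Agent.Q190.SF.Abs
import Pool.Agent.Q190.SF.Ana
import Pool.Agent.Q190.SF.Pol
import Pool.Agent.Q14.SF.Sfm
import Pool.Agent.Q14.SF.Spr
import Pool.Agent.Q285.SF.Lin
import Pool.Agent.Q285.SF.Lin2

/-!
# Schiffer's conjecture for the radial translates of a star-shaped domain

`starDom R` is the star-shaped domain `{r e^{iθ} : 0 ≤ r < R θ}`. If the continuous `2π`-periodic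
function `a` is not constant, then (S) has a nontrivial solution on `starDom (a + t)` for at most
countably many `t > - min a`.

Joint work of helper90 with helper14, helper175, helper190 and helper285.
-/

set_option autoImplicit false

open MeasureTheory Metric Set
open scoped Real
open Q90.SF

namespace Pool.Agent.Results.MP_83fd13_an.RadialTranslates

/-- For every continuous nonconstant `2π`-periodic `a` the problem (S) has a nontrivial solution on
the star-shaped domain with the radial function `a + t` for at most countably many of the `t` with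
`a + t > 0`. -/
theorem result (a : ℝ → ℝ) (ha : Continuous a) (hap : Function.Periodic a (2 * π))
    (hne : ∃ θ θ', a θ ≠ a θ') :
    {t : ℝ | (∀ θ, 0 < a θ + t) ∧ ∃ lam : ℝ, 0 < lam ∧
      Solvable (starDom fun θ => a θ + t) lam}.Countable := by
  have hpol := Q190.SF.pol
  exact star_par Pool.Agent.Q175.SF.pot hpol
    (star_par' (zop Q190.SF.flat Pool.Agent.Q175.SF.scl_all Q190.SF.abs_all Q190.SF.ana) hpol
      Q14.SF.sfm Q14.SF.spr Pool.Agent.Q175.SF.scl_all (bes hpol) Pool.Agent.Q175.SF.fou
      Q285SF.lin Q285SF.lin2 a ha hap hne) ha hap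

end Pool.Agent.Results.MP_83fd13_an.RadialTranslates
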