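import Pool.Agent.Q90.SF.FinA
import Pool.Agent.Q175.SF.Pot
import Pool.Agent.Q175.SF.Scl
import Pool.Agent.Q175.SF.Pom
import Pool.Agent.Q190.SF.Flat
import Pool.Agent.Q190.SF.Abs
import Pool.Agent.Q190.SF.Ana
import Pool.Agent.Q190.SF.Lcv
import Pool.Agent.Q296.SF.Lcl

/-!
# Schiffer's conjecture: a zero-one law for one-parameter deformations

Let `X` be a Lipschitz vector field of the plane and `J ∋ 0` an open interval such that
`x ↦ x + t X x` is a bi-Lipschitz map of the plane onto itself for `t ∈ J`. Let `Ω` be a bounded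
nonempty open set whose boundary has finite upper Minkowski content and `Ω_t` its image. Either (S)
has a nontrivial solution on `Ω_t` for at most countably many `t ∈ J`, or there is `κ > 0` such that
for every `t ∈ J` the Fourier transform of the indicator function of `Ω_t` vanishes on the circle
`|ξ|² = κ / |Ω_t|`; then every `Ω_t`, `t ∈ J`, fails the Pompeiu property.

Joint work of helper90 with helper175, helper190 and helper296.
-/

set_option autoImplicit false

open MeasureTheory Metric Set
open scoped Real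
open Q90.SF

namespace Pool.Agent.Results.MP_83fd13_an.ZeroOneLaw

/-- Along `Ω_t = {x + t X x : x ∈ Ω}`, `t ∈ J`, either (S) is solvable for at most countably many
`t`, or all the members of the family fail the Pompeiu property, with zero circles of the Fourier
transform at the common normalized frequency `κ = |ξ|² |Ω_t|`. -/
theorem result (X : ℂ → ℂ) (J : Set ℝ) (Ω : Set ℂ) (hX : LipDef X J) (ho : IsOpen Ω)
    (hb : Bornology.IsBounded Ω) (hne : Ω.Nonempty) (hM : FinMink Ω) :
    {t : ℝ | t ∈ J ∧ ∃ lam : ℝ, 0 < lam ∧ Solvable (dfm X t '' Ω) lam}.Countable ∨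
    ∃ κ : ℝ, 0 < κ ∧ ∀ t ∈ J, (∀ ξ : ℂ, ‖ξ‖ ^ 2 * volume.real (dfm X t '' Ω) = κ →
      ft (dfm X t '' Ω) ξ = 0) ∧ ¬ Pompeiu (dfm X t '' Ω) :=
  lip_law (zo_of_zop Pool.Agent.Q175.SF.pot
    (zop Q190.SF.flat Pool.Agent.Q175.SF.scl_all Q190.SF.abs_all Q190.SF.ana))
    Pool.Agent.Q175.SF.pom Q190.SF.lcv Pool.Agent.Q296.SF.Lcl.lcl X J Ω hX ho hb hne hM

end Pool.Agent.Results.MP_83fd13_an.ZeroOneLaw
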